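import Pool.Agent.Helper824_xs.Upper

set_option autoImplicit false

/-!
# The maximum number of intersections of a cross-Sperner pair, `n` odd

`CrossSperner` and `inters` are defined in `Pool.Agent.Helper824_xs.Upper`.

Idea of the upper bound. Let `𝒰`, `𝒲` be the upper closures of `𝒜`, `ℬ`. No member of
`inters 𝒜 ℬ` lies in `𝒰 ∪ 𝒲`. Give `S` the weight `t ^ (n - |S|)` with `t = 12/5`. The total weight is
`(1 + t) ^ n`; the weight of `inters 𝒜 ℬ` is at most the product of the weights of `𝒜` and `ℬ`; the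
weight of an upper set with `u` members is at most `∑_{i<u} t^{s(i)}` (`s` the binary digit sum).
If `inters 𝒜 ℬ` had more than `(2^d - 1)(2^(d+1) - 1)` members, both upper sets would have between
`2^d` and `2^(d+1)` members, and the total weight would be too small.
-/

namespace Pool.Agent.Results.MP_841146_co.OddCrossSperner

open Finset Pool.Agent.Helper824_xs

/-- the construction -/
lemma lower {α : Type*} [Fintype α] [DecidableEq α] (X Y : Finset α) (hd : Disjoint X Y) :
    ∃ 𝒜 ℬ : Finset (Finset α), CrossSperner 𝒜 ℬ ∧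
      (2 ^ #X - 1) * (2 ^ #Y - 1) = #(inters 𝒜 ℬ) := by
  refine ⟨X.ssubsets.image (· ∪ Y), Y.ssubsets.image (X ∪ ·), ?_, ?_⟩
  · intro A hA B hB
    simp only [mem_image, mem_ssubsets] at hA hB
    obtain ⟨A', hA', rfl⟩ := hA
    obtain ⟨B', hB', rfl⟩ := hB
    rw [disjoint_left] at hd
    constructor
    · intro hsub
      obtain ⟨y, hy, hyB⟩ := exists_of_ssubset hB'
      have := hsub (mem_union_right A' hy)
      rcases mem_union.1 this with h | h
      · exact hd h hy
      · exact hyB h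
    · intro hsub
      obtain ⟨x, hx, hxA⟩ := exists_of_ssubset hA'
      have := hsub (mem_union_left B' hx)
      rcases mem_union.1 this with h | h
      · exact hxA h
      · exact hd hx h
  · have hcardS : ∀ Z : Finset α, #Z.ssubsets = 2 ^ #Z - 1 := by
      intro Z
      rw [ssubsets, card_erase_of_mem (mem_powerset_self Z), card_powerset]
    have himg : inters (X.ssubsets.image (· ∪ Y)) (Y.ssubsets.image (X ∪ ·))
        = (X.ssubsets ×ˢ Y.ssubsets).image fun p => p.1 ∪ p.2 := by
      ext S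
      simp only [inters, mem_image, mem_product, Prod.exists, mem_ssubsets]
      constructor
      · rintro ⟨A, B, ⟨⟨A', hA', rfl⟩, ⟨B', hB', rfl⟩⟩, rfl⟩
        refine ⟨A', B', ⟨hA', hB'⟩, ?_⟩
        ext z
        have h1 : z ∈ A' → z ∈ X := fun h => hA'.1 h
        have h2 : z ∈ B' → z ∈ Y := fun h => hB'.1 h
        have h3 : z ∈ X → z ∉ Y := fun h h' => (disjoint_left.1 hd) h h'
        simp only [mem_union, mem_inter]
        tauto
      · rintro ⟨A', B', ⟨hA', hB'⟩, rfl⟩
        refine ⟨A' ∪ Y, X ∪ B', ⟨⟨A', hA', rfl⟩, ⟨B', hB', rfl⟩⟩, ?_⟩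
        ext z
        have h1 : z ∈ A' → z ∈ X := fun h => hA'.1 h
        have h2 : z ∈ B' → z ∈ Y := fun h => hB'.1 h
        have h3 : z ∈ X → z ∉ Y := fun h h' => (disjoint_left.1 hd) h h'
        simp only [mem_union, mem_inter]
        tauto
    rw [himg, card_image_of_injOn, card_product, hcardS, hcardS]
    rintro ⟨A, B⟩ hAB ⟨A', B'⟩ hAB' heq
    simp only [mem_coe, mem_product, mem_ssubsets] at hAB hAB'
    simp only at heq
    have key : ∀ z, z ∈ A ∪ B ↔ z ∈ A' ∪ B' := fun z => by rw [heq]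
    have e1 : A = A' := by
      ext z
      have h1 : z ∈ A → z ∈ X := fun h => hAB.1.1 h
      have h2 : z ∈ B → z ∈ Y := fun h => hAB.2.1 h
      have h1' : z ∈ A' → z ∈ X := fun h => hAB'.1.1 h
      have h2' : z ∈ B' → z ∈ Y := fun h => hAB'.2.1 h
      have h3 : z ∈ X → z ∉ Y := fun h h' => (disjoint_left.1 hd) h h'
      have := key z
      simp only [mem_union] at this
      tauto
    have e2 : B = B' := by
      ext z
      have h1 : z ∈ A → z ∈ X := fun h => hAB.1.1 h
      have h2 : z ∈ B → z ∈ Y := fun h => hAB.2.1 h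
      have h1' : z ∈ A' → z ∈ X := fun h => hAB'.1.1 h
      have h2' : z ∈ B' → z ∈ Y := fun h => hAB'.2.1 h
      have h3 : z ∈ X → z ∉ Y := fun h h' => (disjoint_left.1 hd) h h'
      have := key z
      simp only [mem_union] at this
      tauto
    rw [e1, e2]

/-- For every odd `n = 2 d + 1` the largest number of distinct sets `A ∩ B` (`A ∈ 𝒜`, `B ∈ ℬ`) over
all cross-Sperner pairs of families of subsets of an `n`-element set is
`2 ^ n + 1 - 2 ^ (d + 1) - 2 ^ d` (the subtractions are not truncated). -/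
theorem result (d : ℕ) :
    IsGreatest {k : ℕ | ∃ 𝒜 ℬ : Finset (Finset (Fin (2 * d + 1))),
        CrossSperner 𝒜 ℬ ∧ k = #(inters 𝒜 ℬ)}
      (2 ^ (2 * d + 1) + 1 - 2 ^ (d + 1) - 2 ^ d) := by
  have hpow : (2 : ℕ) ^ (2 * d + 1) = 2 * (2 ^ d * 2 ^ d) := by
    rw [pow_succ, two_mul, pow_add]; ring
  have hD : 1 ≤ 2 ^ d := Nat.one_le_two_pow
  constructor
  · set X : Finset (Fin (2 * d + 1)) := univ.filter fun i => i.val < d with hX
    set Y : Finset (Fin (2 * d + 1)) := univ.filter fun i => ¬ i.val < d with hY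
    have hdisj : Disjoint X Y := disjoint_filter_filter_not _ _ _
    have hcX : #X = d := by
      rw [hX, Fin.card_filter_val_lt]; omega
    have hcXY : #X + #Y = 2 * d + 1 := by
      rw [hX, hY, card_filter_add_card_filter_not]; simp
    have hcY : #Y = d + 1 := by omega
    obtain ⟨𝒜, ℬ, hcs, hcard⟩ := lower X Y hdisj
    refine ⟨𝒜, ℬ, hcs, ?_⟩
    rw [← hcard, hcX, hcY, hpow, pow_succ]
    obtain ⟨m, hm⟩ : ∃ m, 2 ^ d = m + 1 := ⟨2 ^ d - 1, by omega⟩
    rw [hm]
    have e1 : m + 1 - 1 = m := rfl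
    have e2 : (m + 1) * 2 - 1 = 2 * m + 1 := by omega
    rw [e1, e2]
    have e3 : 2 * ((m + 1) * (m + 1)) + 1 = m * (2 * m + 1) + (m + 1) + (m + 1) * 2 := by ring
    rw [e3]
    omega
  · rintro k ⟨𝒜, ℬ, hcs, rfl⟩
    have h := upper d (by simp) hcs
    have h2 : (2 : ℕ) ^ (d + 1) = 2 * 2 ^ d := by rw [pow_succ]; ring
    omega

end Pool.Agent.Results.MP_841146_co.OddCrossSperner
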